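import Pool.Agent.H75.PRL.All
import Pool.Agent.H75.TS.Parts

/-!
# Elliptic surfaces with trivial 2-Selmer group
-/

set_option autoImplicit false

namespace Pool.TS

open Polynomial Pool.AVR Pool.AVS Pool.RZ Pool.PRL

open Classical in
/-- A proportion of at least `δ > 0` of the elements of `S n`, `n` large, has trivial 2-Selmer group
and finite Mordell-Weil group. -/
def PosTrivial {F : Type} [Field F] (S : ℕ → Set (F[X] × F[X] × F[X])) : Prop :=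
  ∃ δ : ℝ, 0 < δ ∧ ∃ N : ℕ, ∀ n : ℕ, N ≤ n → (S n).Finite ∧ 0 < (S n).ncard ∧
    δ * (S n).ncard ≤ {f ∈ S n | (Sel f).ncard = 1 ∧ Finite (EK f)}.ncard

theorem not_fam {F : Type} [Field F] {m : ℕ} {g : F[X] × F[X] × F[X]} (hm : 1 ≤ m)
    (h0 : g.1 = 0) (h : NR (top3 m g)) : g ∉ Fam F (m - 1) := by
  rintro ⟨h1, h2, h3⟩
  apply h 0
  have e2 : g.2.2.coeff (6 * m) = 0 := coeff_eq_zero_of_natDegree_lt (by omega)
  simp [top3, e2]

open Classical in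
/-- From the law for a family to trivial Selmer groups. -/
theorem step {F : Type} [Field F] [Finite F] (h2 : (2 : F) ≠ 0) {c : ℝ}
    {Z S : Set (F[X] × F[X] × F[X])} (h : PosLaw (1 / 10) c Z S) (hS0 : (S.ncard : ℝ) ≠ 0)
    (hc : 0 < c) (hZ : ∀ g ∈ Z, ∃ n, g ∈ Irr F n) :
    1 / 10 * c * S.ncard ≤ {f ∈ S | (Sel f).ncard = 1 ∧ Finite (EK f)}.ncard := by
  obtain ⟨hRKP, -, -, -, -, -, hPR0, -, -⟩ := parts
  obtain ⟨hsub, hfin, hpos, hden, hlaw, -⟩ := h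
  have h1 := hlaw 1
  rw [Finset.sum_range_one, pow_zero] at h1
  have hZ0 : (0 : ℝ) < Z.ncard := by
    refine lt_of_lt_of_le ?_ hden
    have : (0 : ℝ) < S.ncard := by exact_mod_cast hpos
    positivity
  have h3 : (1 / 10 : ℝ) ≤ ({g | g ∈ Z ∧ (Sel g).ncard = 1}.ncard : ℝ) / Z.ncard := by
    have h4 := (abs_le.1 h1).1
    have : (0.2097 : ℝ) < PR 0 := hPR0
    linarith
  rw [le_div_iff₀ hZ0] at h3
  have h5 : {g | g ∈ Z ∧ (Sel g).ncard = 1}.ncard ≤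
      {f ∈ S | (Sel f).ncard = 1 ∧ Finite (EK f)}.ncard := by
    refine Set.ncard_le_ncard ?_ (hfin.subset fun f hf => hf.1)
    rintro g ⟨hg, hg1⟩
    obtain ⟨n, hn⟩ := hZ g hg
    exact ⟨hsub hg, hg1, (hRKP F h2 n g hn).1 hg1⟩
  have h6 : ({g | g ∈ Z ∧ (Sel g).ncard = 1}.ncard : ℝ) ≤
      ({f ∈ S | (Sel f).ncard = 1 ∧ Finite (EK f)}.ncard : ℝ) := by exact_mod_cast h5
  nlinarith

/-- From a family to a subfamily which contains the special family. -/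
theorem posLaw_sub {F : Type} [Field F] {ε c : ℝ} {Z S S' : Set (F[X] × F[X] × F[X])}
    (h : PosLaw ε c Z S) (hc : 0 < c) (hZ : Z ⊆ S') (hS : S' ⊆ S) : PosLaw ε c Z S' := by
  obtain ⟨hsub, hfin, hpos, hden, hlaw⟩ := h
  have hfin' := hfin.subset hS
  have h1 : S'.ncard ≤ S.ncard := Set.ncard_le_ncard hS hfin
  have hden' : c * S'.ncard ≤ Z.ncard := by
    refine le_trans ?_ hden
    have : (S'.ncard : ℝ) ≤ S.ncard := by exact_mod_cast h1
    exact mul_le_mul_of_nonneg_left this hc.le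
  refine ⟨hZ, hfin', ?_, hden', hlaw⟩
  have h2 : (0 : ℝ) < Z.ncard := by
    refine lt_of_lt_of_le ?_ hden
    have : (0 : ℝ) < S.ncard := by exact_mod_cast hpos
    positivity
  have h3 : 0 < Z.ncard := by exact_mod_cast h2
  exact lt_of_lt_of_le h3 (Set.ncard_le_ncard hZ hfin')

open Classical FIP in
/-- The main theorem. -/
theorem mainT (F : Type) [Field F] [Finite F] (h2 : (2 : F) ≠ 0) :
    PosTrivial (Ell F) ∧ ((3 : F) ≠ 0 → PosTrivial (Sht F) ∧ PosTrivial (ShtM F)) := by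
  obtain ⟨-, hTWP, -⟩ := parts
  obtain ⟨hex, k0, hk0⟩ := mainPR F h2 (1 / 10) (by norm_num)
  obtain ⟨e, T1, T2, ha, hcard⟩ := hex (2 * k0 + 1)
  obtain ⟨c, hc, N, hN⟩ := hk0 e T1 T2 ha (by rw [hcard]; exact odd_two_mul_add_one k0) (by omega)
  have hev := adm_ev ha
  have hdis := adm_dis ha
  set E : ℕ := e * (T1.card / 2 + 1) with hE
  have hfacts : ∀ m, E + 1 ≤ m → ∀ g ∈ ZF e T1 T2 m, g ∈ Irr F m ∧ NR (top3 m g) := by
    rintro m hm g ⟨f, hf, S, hS, rfl⟩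
    obtain ⟨n, rfl⟩ : ∃ n, m = n + E := ⟨m - E, by omega⟩
    have hmn : n + E - E = n := by omega
    rw [← hE, hmn] at hf
    have hT := hTWP F h2 n (T1 ∪ T2) hev
    obtain ⟨h3, -, h4, -⟩ := (hT.2 f hf).2.2.2.2.2.2.2 S (Sl_sub hS)
    rw [((hT.1 S (Sl_sub hS)).2.2.1), deg_Sl ha hdis hS, Nat.mul_div_cancel_left _ two_pos,
      ← hE] at h3 h4
    exact ⟨h3, h4⟩
  refine ⟨⟨1 / 10 * c, by positivity, N + E + 1, ?_⟩, fun h3 => ⟨⟨1 / 10 * c, by positivity,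
    N + E + 1, ?_⟩, ⟨1 / 10 * c, by positivity, N + E + 1, ?_⟩⟩⟩
  · intro m hm
    obtain ⟨h4, -, -⟩ := hN m (by omega)
    refine ⟨h4.2.1, h4.2.2.1, step h2 h4 ?_ hc fun g hg => ⟨m, (hfacts m (by omega) g hg).1⟩⟩
    have := h4.2.2.1
    positivity
  · intro m hm
    obtain ⟨-, -, h5⟩ := hN m (by omega)
    obtain ⟨h4, -⟩ := h5 h3
    refine ⟨h4.2.1, h4.2.2.1, step h2 h4 ?_ hc fun g hg => ⟨m, (hfacts m (by omega) g hg.1).1⟩⟩
    have := h4.2.2.1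
    positivity
  · intro m hm
    obtain ⟨-, -, h5⟩ := hN m (by omega)
    obtain ⟨h4, h6⟩ := h5 h3
    have h7 : PosLaw (1 / 10) c {g | g ∈ ZF e T1 T2 m ∧ g.1 = 0} (ShtM F m) := by
      refine posLaw_sub h4 hc ?_ fun g hg => hg.1
      intro g hg
      refine ⟨h4.1 hg, fun P _ hP => (h6 hg).2 P hP, ?_⟩
      rintro ⟨hm1, hf⟩
      exact not_fam hm1 hg.2 (hfacts m (by omega) g hg.1).2 hf
    refine ⟨h7.2.1, h7.2.2.1, step h2 h7 ?_ hc fun g hg => ⟨m, (hfacts m (by omega) g hg.1).1⟩⟩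
    have := h7.2.2.1
    positivity

end Pool.TS
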